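import Pool.Agent.helper19.FE.Spec

/-!
# Row fe:IDO: the finite index set with permutations, one cyclic coordinate
-/

set_option autoImplicit false

namespace Pool.Agent.FE

open Finset

theorem IDO_large (N v : ℕ) [NeZero N] : #{x : ZMod N | N ≤ x.val + v} ≤ v := by
  classical
  have hinj : Function.Injective (fun x : ZMod N => N - 1 - x.val) := by
    intro x y hxy
    have hx := ZMod.val_lt x
    have hy := ZMod.val_lt y
    apply ZMod.val_injective N
    simp only at hxy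
    omega
  have h1 : #{x : ZMod N | N ≤ x.val + v} = #(({x : ZMod N | N ≤ x.val + v} : Finset (ZMod N)).image (fun x : ZMod N => N - 1 - x.val)) := by
    rw [card_image_of_injective _ hinj]
  rw [h1]
  have h2 : ({x : ZMod N | N ≤ x.val + v} : Finset (ZMod N)).image (fun x : ZMod N => N - 1 - x.val) ⊆ range v := by
    intro y hy
    rw [mem_image] at hy
    obtain ⟨x, hx, rfl⟩ := hy
    rw [mem_filter] at hx
    have hx' := ZMod.val_lt x
    have := hx.2
    rw [mem_range]
    omega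
  calc #(({x : ZMod N | N ≤ x.val + v} : Finset (ZMod N)).image (fun x : ZMod N => N - 1 - x.val)) ≤ #(range v) := card_le_card h2
    _ = v := card_range v

/-- fibres of a coordinate -/
theorem IDO_cnt (ι : Type) [Fintype ι] [DecidableEq ι] (N : ℕ) [NeZero N] (i : ι) (S : Finset (ZMod N)) :
    #{f : ι → ZMod N | f i ∈ S} * N = #S * Fintype.card (ι → ZMod N) := by
  classical
  have h1 : ({f : ι → ZMod N | f i ∈ S} : Finset (ι → ZMod N)) = (S ×ˢ (univ : Finset ({j // j ≠ i} → ZMod N))).map (Equiv.funSplitAt i (ZMod N)).symm.toEmbedding := by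
    ext f
    rw [mem_filter, mem_map]
    constructor
    · rintro ⟨-, hf⟩
      exact ⟨Equiv.funSplitAt i (ZMod N) f, mem_product.2 ⟨hf, mem_univ _⟩, (Equiv.funSplitAt i (ZMod N)).symm_apply_apply f⟩
    · rintro ⟨y, hy, rfl⟩
      refine ⟨mem_univ _, ?_⟩
      have h2 : ((Equiv.funSplitAt i (ZMod N)) ((Equiv.funSplitAt i (ZMod N)).symm y)).1 = y.1 := by rw [Equiv.apply_symm_apply]
      have h3 : ((Equiv.funSplitAt i (ZMod N)) ((Equiv.funSplitAt i (ZMod N)).symm y)).1 = ((Equiv.funSplitAt i (ZMod N)).symm y) i := rfl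
      rw [Equiv.coe_toEmbedding, ← h3, h2]
      exact (mem_product.1 hy).1
  have h2 : Fintype.card (ι → ZMod N) = N * Fintype.card ({j // j ≠ i} → ZMod N) := by
    rw [Fintype.card_congr (Equiv.funSplitAt i (ZMod N)), Fintype.card_prod, ZMod.card]
  rw [h1, card_map, card_product, h2, card_univ]
  ring

theorem IDO : IDO_stmt := by
  classical
  intro ι _ x η hη
  set M : ℕ := ∑ i, x i with hM
  obtain ⟨N0, hN0⟩ := exists_nat_gt (((M + 1 : ℕ) : ℝ) / η)
  set N : ℕ := N0 + 2 with hN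
  have hNZ : NeZero N := ⟨by omega⟩
  let K := (ι × ZMod N) → ZMod N
  let T := ZMod N × K
  let sg : (ι × ZMod N) → K := fun z => Pi.single z (1 : ZMod N)
  let gg : ι → Equiv.Perm T := fun i => Equiv.prodShear (Equiv.addRight ((x i : ℕ) : ZMod N)) (fun e => Equiv.addRight (sg (i, e)))
  -- the bad set for one index
  have hbad : ∀ i : ι, (#{γ : T | ¬ (γ.1.val + x i < N ∧ γ.2 (i, γ.1) ≠ -1)} : ℝ) ≤ η * Fintype.card T := by
    intro i
    have hMr : x i ≤ M := Finset.single_le_sum (f := fun i : ι => x i) (fun _ _ => Nat.zero_le _) (mem_univ i)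
    let S : Finset (ZMod N) := {z : ZMod N | N ≤ z.val + x i}
    have hS : #S ≤ M := (IDO_large _ _).trans hMr
    let A : Finset T := {γ : T | γ.1 ∈ S}
    let B : Finset T := {γ : T | γ.2 (i, γ.1) ∈ ({-1} : Finset (ZMod N))}
    have hsub : ({γ : T | ¬ (γ.1.val + x i < N ∧ γ.2 (i, γ.1) ≠ -1)} : Finset T) ⊆ A ∪ B := by
      intro γ hγ
      rw [mem_filter] at hγ
      rw [mem_union]
      by_cases h2 : γ.2 (i, γ.1) = -1
      · right
        exact mem_filter.2 ⟨mem_univ _, mem_singleton.2 h2⟩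
      · left
        have h3 : ¬ (γ.1.val + x i < N) := fun h => hγ.2 ⟨h, h2⟩
        rw [not_lt] at h3
        exact mem_filter.2 ⟨mem_univ _, mem_filter.2 ⟨mem_univ _, h3⟩⟩
    have hA : #A * N ≤ M * Fintype.card T := by
      have h1 : A = S ×ˢ (univ : Finset K) := by
        ext γ
        constructor
        · intro h
          exact mem_product.2 ⟨(mem_filter.1 h).2, mem_univ _⟩
        · intro h
          exact mem_filter.2 ⟨mem_univ _, (mem_product.1 h).1⟩
      rw [h1, card_product, card_univ]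
      calc #S * Fintype.card K * N ≤ M * Fintype.card K * N := by gcongr
        _ = M * Fintype.card T := by rw [show Fintype.card T = Fintype.card (ZMod N) * Fintype.card K from Fintype.card_prod (ZMod N) K, ZMod.card]; ring
    have hB : #B * N = Fintype.card T := by
      have h1 : #B = ∑ e : ZMod N, #{κ : K | κ (i, e) ∈ ({-1} : Finset (ZMod N))} := by
        rw [card_filter, Fintype.sum_prod_type]
        exact Finset.sum_congr rfl fun e _ => by rw [card_filter]
      rw [h1, Finset.sum_mul]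
      have h2 : ∀ e : ZMod N, #{κ : K | κ (i, e) ∈ ({-1} : Finset (ZMod N))} * N = Fintype.card K := by
        intro e
        have h3 := IDO_cnt (ι × ZMod N) N (i, e) {-1}
        rw [card_singleton, one_mul] at h3
        exact h3
      rw [Finset.sum_congr rfl fun e _ => h2 e, Finset.sum_const, card_univ, smul_eq_mul]
      exact (Fintype.card_prod (ZMod N) K).symm
    have hall : #({γ : T | ¬ (γ.1.val + x i < N ∧ γ.2 (i, γ.1) ≠ -1)} : Finset T) * N ≤ (M + 1) * Fintype.card T := by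
      calc _ ≤ #(A ∪ B) * N := Nat.mul_le_mul_right _ (card_le_card hsub)
        _ ≤ (#A + #B) * N := Nat.mul_le_mul_right _ (card_union_le _ _)
        _ = #A * N + #B * N := by rw [add_mul]
        _ ≤ M * Fintype.card T + Fintype.card T := add_le_add hA hB.le
        _ = (M + 1) * Fintype.card T := by ring
    have hNpos : (0 : ℝ) < N := by
      have : (0 : ℕ) < N := by omega
      exact_mod_cast this
    have hall' : (#({γ : T | ¬ (γ.1.val + x i < N ∧ γ.2 (i, γ.1) ≠ -1)} : Finset T) : ℝ) * N ≤ ((M + 1 : ℕ) : ℝ) * Fintype.card T := by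
      exact_mod_cast hall
    have hNη : ((M + 1 : ℕ) : ℝ) ≤ η * N := by
      rw [div_lt_iff₀ hη] at hN0
      have : (N : ℝ) = N0 + 2 := by rw [hN]; push_cast; ring
      rw [this]
      nlinarith
    have hT0 : (0 : ℝ) ≤ Fintype.card T := Nat.cast_nonneg _
    by_contra hcon
    rw [not_le] at hcon
    have h5 : η * Fintype.card T * N < ((M + 1 : ℕ) : ℝ) * Fintype.card T := lt_of_lt_of_le (mul_lt_mul_of_pos_right hcon hNpos) hall'
    have h6 : ((M + 1 : ℕ) : ℝ) * Fintype.card T ≤ η * N * Fintype.card T := mul_le_mul_of_nonneg_right hNη hT0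
    nlinarith
  -- the values of the shifted exponents
  have hval : ∀ (i : ι) (e : ZMod N), e.val + x i < N → (e + ((x i : ℕ) : ZMod N)).val = e.val + x i := by
    intro i e h2
    have h3 : e + ((x i : ℕ) : ZMod N) = ((e.val + x i : ℕ) : ZMod N) := by
      rw [Nat.cast_add, ZMod.natCast_zmod_val]
    rw [h3, ZMod.val_natCast_of_lt h2]
  have hval1 : ∀ x : ZMod N, x ≠ -1 → (x + 1).val = x.val + 1 := by
    intro x hx
    have hx1 := ZMod.val_lt x
    have h1 : x.val + 1 < N := by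
      by_contra hcon
      have h2 : x.val + 1 = N := by omega
      apply hx
      have h3 : ((x.val + 1 : ℕ) : ZMod N) = 0 := by rw [h2]; exact ZMod.natCast_self N
      rw [Nat.cast_add, ZMod.natCast_zmod_val, Nat.cast_one] at h3
      exact eq_neg_of_add_eq_zero_left h3
    have h4 : x + 1 = ((x.val + 1 : ℕ) : ZMod N) := by rw [Nat.cast_add, ZMod.natCast_zmod_val, Nat.cast_one]
    rw [h4, ZMod.val_natCast_of_lt h1]
  let EQ := Fintype.equivFin T
  refine ⟨Fintype.card T, N, fun γ => (EQ.symm γ).1.val, fun i => (EQ.symm.trans (gg i)).trans EQ, Fintype.card_pos, fun γ => (ZMod.val_lt _).le, ?_⟩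
  intro a b ha hb
  let ww : ZMod N → ℕ := fun e => a ^ (N - e.val) * b ^ e.val
  have hww : ∀ e, 1 ≤ ww e := fun e => Nat.one_le_iff_ne_zero.2 (mul_ne_zero (pow_ne_zero _ (by omega)) (pow_ne_zero _ (by omega)))
  have hmul : ∀ i, ∀ e e' : ZMod N, e'.val = e.val + x i → a ^ x i * ww e' = b ^ x i * ww e := by
    intro i e e' h
    have he' := ZMod.val_lt e'
    have h2 : N - e.val = x i + (N - e'.val) := by omega
    change a ^ x i * (a ^ (N - e'.val) * b ^ e'.val) = b ^ x i * (a ^ (N - e.val) * b ^ e.val)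
    rw [h2, h, pow_add, pow_add]
    ring
  set P : ℕ := ∏ i, ∏ e : ZMod N, b ^ x i * ww e with hP
  have hPd : ∀ i, ∀ e : ZMod N, b ^ x i * ww e ∣ P := fun i e =>
    (Finset.dvd_prod_of_mem (fun e : ZMod N => b ^ x i * ww e) (mem_univ e)).trans (Finset.dvd_prod_of_mem (fun i : ι => ∏ e : ZMod N, b ^ x i * ww e) (mem_univ i))
  have hP1 : 1 ≤ P := Nat.one_le_iff_ne_zero.2 (Finset.prod_ne_zero_iff.2 fun i _ => Finset.prod_ne_zero_iff.2 fun e _ =>
    mul_ne_zero (pow_ne_zero _ (by omega)) (by have := hww e; omega))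
  refine ⟨P, hP1, ?_⟩
  intro V Q hV
  have hu : ∀ sv : ι × ZMod N, ∃ u : ℤ, ((b ^ x sv.1 : ℕ) : ℤ) * ((ww sv.2 : ℕ) : ℤ) * u = V sv.1 ∧ Q ∣ u := by
    intro sv
    obtain ⟨t, ht⟩ := hV sv.1
    obtain ⟨m, hm⟩ := hPd sv.1 sv.2
    refine ⟨Q * (m * t), ?_, Dvd.intro _ rfl⟩
    rw [ht, hm]
    push_cast
    ring
  choose u hu1 hu2 using hu
  let oo : T → ℤ := fun γ => ((ww γ.1 : ℕ) : ℤ) * ∑ sv : ι × ZMod N, (((γ.2 sv).val : ℕ) : ℤ) * u sv
  refine ⟨fun γ => oo (EQ.symm γ), fun γ => Dvd.dvd.mul_left (Finset.dvd_sum fun sv _ => (hu2 sv).mul_left _) _, ?_⟩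
  intro i
  refine le_trans ?_ (hbad i)
  have hcard : (#{γ : Fin (Fintype.card T) | ¬ ((EQ.symm ((EQ.symm.trans (gg i)).trans EQ γ)).1.val = (EQ.symm γ).1.val + x i ∧
      (a : ℤ) ^ x i * oo (EQ.symm ((EQ.symm.trans (gg i)).trans EQ γ)) = (b : ℤ) ^ x i * oo (EQ.symm γ) + V i)} : ℕ) ≤
    #{γ : T | ¬ (γ.1.val + x i < N ∧ γ.2 (i, γ.1) ≠ -1)} := by
    refine Finset.card_le_card_of_injOn (fun γ => EQ.symm γ) ?_ EQ.symm.injective.injOn
    intro γ hγ
    rw [mem_coe, mem_filter] at hγ ⊢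
    refine ⟨mem_univ _, fun hgood => hγ.2 ?_⟩
    obtain ⟨hg1, hg2⟩ := hgood
    set z : T := EQ.symm γ with hz
    have e0 : (EQ.symm.trans (gg i)).trans EQ γ = EQ (gg i z) := by
      rw [Equiv.trans_apply, Equiv.trans_apply, ← hz]
    have e1 : gg i z = (z.1 + ((x i : ℕ) : ZMod N), z.2 + sg (i, z.1)) := rfl
    rw [e0, Equiv.symm_apply_apply, e1]
    have hw : a ^ x i * ww (z.1 + ((x i : ℕ) : ZMod N)) = b ^ x i * ww z.1 := hmul i _ _ (hval i z.1 hg1)
    refine ⟨hval i z.1 hg1, ?_⟩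
    have hs' : ∀ sv : ι × ZMod N, ((((z.2 + sg (i, z.1) : K) sv).val : ℕ) : ℤ) = (((z.2 sv).val : ℕ) : ℤ) + if sv = (i, z.1) then 1 else 0 := by
      intro sv
      by_cases h : sv = (i, z.1)
      · rw [if_pos h, h]
        have h5 : (z.2 + sg (i, z.1) : K) (i, z.1) = z.2 (i, z.1) + 1 := by
          change z.2 (i, z.1) + (Pi.single (i, z.1) (1 : ZMod N) : K) (i, z.1) = _
          rw [Pi.single_eq_same]
        rw [h5, hval1 _ hg2]
        push_cast
        ring
      · have h5 : (z.2 + sg (i, z.1) : K) sv = z.2 sv := by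
          change z.2 sv + (Pi.single (i, z.1) (1 : ZMod N) : K) sv = _
          rw [Pi.single_eq_of_ne h, add_zero]
        rw [if_neg h, h5, add_zero]
    change (a : ℤ) ^ x i * (((ww (z.1 + ((x i : ℕ) : ZMod N)) : ℕ) : ℤ) * ∑ sv : ι × ZMod N, ((((z.2 + sg (i, z.1) : K) sv).val : ℕ) : ℤ) * u sv) =
      (b : ℤ) ^ x i * (((ww z.1 : ℕ) : ℤ) * ∑ sv : ι × ZMod N, (((z.2 sv).val : ℕ) : ℤ) * u sv) + V i
    have hsum : ∑ sv : ι × ZMod N, ((((z.2 + sg (i, z.1) : K) sv).val : ℕ) : ℤ) * u sv =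
        (∑ sv : ι × ZMod N, (((z.2 sv).val : ℕ) : ℤ) * u sv) + u (i, z.1) := by
      have h1 : ∀ sv : ι × ZMod N, ((((z.2 + sg (i, z.1) : K) sv).val : ℕ) : ℤ) * u sv = (((z.2 sv).val : ℕ) : ℤ) * u sv + if sv = (i, z.1) then u sv else 0 := by
        intro sv
        rw [hs' sv]
        by_cases h : sv = (i, z.1)
        · rw [if_pos h, if_pos h]
          ring
        · rw [if_neg h, if_neg h]
          ring
      rw [Finset.sum_congr rfl fun sv _ => h1 sv, Finset.sum_add_distrib, Finset.sum_ite_eq' univ (i, z.1) u, if_pos (mem_univ _)]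
    rw [hsum]
    have hwz : (a : ℤ) ^ x i * ((ww (z.1 + ((x i : ℕ) : ZMod N)) : ℕ) : ℤ) = (b : ℤ) ^ x i * ((ww z.1 : ℕ) : ℤ) := by exact_mod_cast hw
    have hur : ((b ^ x i : ℕ) : ℤ) * ((ww z.1 : ℕ) : ℤ) * u (i, z.1) = V i := hu1 (i, z.1)
    rw [Nat.cast_pow] at hur
    rw [← hur, ← mul_assoc, hwz]
    ring
  exact_mod_cast hcard

end Pool.Agent.FE
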